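import Pool.Agent.Lib.MP_95a65f_co.Old.ExactConstant

/-!
The best constant `c_r` in `γ_t(G) ≥ c_r * ∑_{i<j} d(x_i, x_j)` for every `r ≥ 3`, in the sharp
form: the exact maximum of `∑_{i<j} d(x_i, x_j)` over connected graphs of total domination number
`m`, for every `m ≥ 2` and `r ≥ 2`, is `(m + 2 ⌊m/2⌋ - 3) ⌊r²/4⌋ + r (r - 1)`.

Upper bound: the growth argument of `ExactConstant` with the parity of `|A|` tracked.
Lower bound: a path with `m + 2 ⌊m/2⌋ - 3` edges and `r` leaves split between its two ends.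
-/

open Finset

namespace Pool.Agent.Results.MP_95a65f_co.ExtremalSum

open Pool.Agent.Lib.MP_95a65f_co.Old.ExactConstant

section Upper

variable {V : Type} {G : SimpleGraph V} {r : ℕ}

open Classical in
lemma grow_par (hG : G.Connected) {S : Finset V} (hS : IsTotalDominating G S) :
    ∀ (n : ℕ) (A : Finset V), A ⊆ S → S.card - A.card = n → 2 ≤ A.card →
      Bnd G r A (A.card + 2 * (A.card / 2) - 3) → Bnd G r S (S.card + 2 * (S.card / 2) - 3) := by
  intro n
  induction n using Nat.strong_induction_on with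
  | _ n ih =>
    intro A hAS hn h2 hB
    by_cases hSA : S ⊆ A
    · have : A = S := Subset.antisymm hAS hSA
      subst this
      exact hB
    have hcard : ∀ B : Finset V, B ⊆ S → B.card ≤ S.card := fun B hB => card_le_card hB
    by_cases h1 : ∃ s ∈ A, ∃ t ∈ S, t ∉ A ∧ G.Adj s t
    · obtain ⟨s, hs, t, ht, htA, hst⟩ := h1
      have hsub : insert t A ⊆ S := insert_subset ht hAS
      have hc : (insert t A).card = A.card + 1 := card_insert_of_notMem htA
      have hle := hcard _ hsub
      refine ih (S.card - (insert t A).card) (by omega) (insert t A) hsub rfl (by omega) ?_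
      exact (hB.step hG hs (SimpleGraph.dist_eq_one_iff_adj.mpr hst).le).mono (by omega)
    · obtain ⟨b, hb, hbA⟩ := not_subset.mp hSA
      obtain ⟨a, ha⟩ : A.Nonempty := card_pos.mp (by omega)
      obtain ⟨s, hs, t, ht, htA, hst⟩ := exists_cross hG hS ha hb hbA
      obtain ⟨t', ht', htt'⟩ := hS t
      have ht'A : t' ∉ A := fun h => h1 ⟨t', h, t, ht, htA, htt'.symm⟩
      have ht'n : t' ∉ insert t A := by
        simp only [mem_insert, not_or]
        exact ⟨htt'.ne.symm, ht'A⟩
      have hsub : insert t' (insert t A) ⊆ S := insert_subset ht' (insert_subset ht hAS)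
      have hc : (insert t' (insert t A)).card = A.card + 2 := by
        rw [card_insert_of_notMem ht'n, card_insert_of_notMem htA]
      have hle := hcard _ hsub
      refine ih (S.card - (insert t' (insert t A)).card) (by omega) _ hsub rfl (by omega) ?_
      exact (((hB.step hG hs hst).step hG (mem_insert_self t A)
        (SimpleGraph.dist_eq_one_iff_adj.mpr htt').le)).mono (by omega)

open Classical in
lemma bnd_par (hG : G.Connected) {S : Finset V} (hS : IsTotalDominating G S) :
    Bnd G r S (S.card + 2 * (S.card / 2) - 3) := by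
  obtain ⟨v⟩ := hG.nonempty
  obtain ⟨s, hs, _⟩ := hS v
  obtain ⟨t, ht, hst⟩ := hS s
  have htn : t ∉ ({s} : Finset V) := by simpa using hst.ne.symm
  have hc : (insert t ({s} : Finset V)).card = 2 := by rw [card_insert_of_notMem htn]; simp
  have hsub : insert t ({s} : Finset V) ⊆ S := insert_subset ht (by simpa using hs)
  refine grow_par hG hS _ _ hsub rfl hc.ge ?_
  rw [hc]
  exact ((bnd_singleton s).step hG (mem_singleton_self s)
    (SimpleGraph.dist_eq_one_iff_adj.mpr hst).le).mono (by omega)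

lemma sum_le_par (hG : G.Connected) {S : Finset V} (hS : IsTotalDominating G S)
    (x : Fin r → V) :
    ∑ i : Fin r, ∑ j : Fin r with i < j, G.dist (x i) (x j) + r ≤
      (S.card + 2 * (S.card / 2) - 3) * (r ^ 2 / 4) + r ^ 2 := by
  have hB := bnd_par (r := r) hG hS
  choose s hs hxs using hS
  have h1 := hB (fun i => s (x i)) (fun i => hs _)
  have key : ∀ i j, G.dist (x i) (x j) ≤
      (if i = j then 0 else 2) + G.dist (s (x i)) (s (x j)) := by
    intro i j
    by_cases hij : i = j
    · subst hij; simp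
    · have a1 := hG.dist_triangle (u := x i) (v := s (x i)) (w := x j)
      have a2 := hG.dist_triangle (u := s (x i)) (v := s (x j)) (w := x j)
      have a3 := SimpleGraph.dist_eq_one_iff_adj.mpr (hxs (x i))
      have a4 := SimpleGraph.dist_eq_one_iff_adj.mpr (hxs (x j)).symm
      simp only [hij, if_false]
      omega
  have h3 : ∑ i : Fin r, ∑ j : Fin r, G.dist (x i) (x j) ≤
      ∑ i : Fin r, ∑ j : Fin r, (if i = j then 0 else 2)
        + ∑ i : Fin r, ∑ j : Fin r, G.dist (s (x i)) (s (x j)) := by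
    rw [← sum_add_distrib]
    refine sum_le_sum fun i _ => ?_
    rw [← sum_add_distrib]
    exact sum_le_sum fun j _ => key i j
  have h4 := offdiag_sum r
  rw [double_sum (fun i j => G.dist (x i) (x j)) (fun i j => SimpleGraph.dist_comm)
    (fun i => SimpleGraph.dist_self)] at h3
  generalize S.card + 2 * (S.card / 2) - 3 = E at *
  generalize r ^ 2 / 4 = q at *
  have e : E * (2 * q) = 2 * (E * q) := by ring
  omega

end Upper

/-- A path `0, …, E` with `r` leaves: leaf `i` hangs at `0` if `i < r / 2` and at `E` otherwise. -/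
def broom (r E : ℕ) : SimpleGraph (Fin r ⊕ Fin (E + 1)) :=
  SimpleGraph.fromRel fun u v =>
    match u, v with
    | .inl i, .inr k => k.val = if i.val < r / 2 then 0 else E
    | .inr k, .inr l => k.val + 1 = l.val
    | _, _ => False

lemma broom_adj_leaf (r E : ℕ) (i : Fin r) (k : Fin (E + 1))
    (h : k.val = if i.val < r / 2 then 0 else E) : (broom r E).Adj (.inl i) (.inr k) := by
  simp [broom, SimpleGraph.fromRel_adj, h]

lemma broom_adj_path (r E : ℕ) (k l : Fin (E + 1)) (h : k.val + 1 = l.val) :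
    (broom r E).Adj (.inr k) (.inr l) := by
  have : k ≠ l := fun e => by rw [e] at h; omega
  simp [broom, SimpleGraph.fromRel_adj, h, this]

lemma broom_conn (r E : ℕ) : (broom r E).Connected := by
  have hc : ∀ (n : ℕ) (k : Fin (E + 1)), k.val = n → (broom r E).Reachable (.inr k) (.inr 0) := by
    intro n
    induction n with
    | zero =>
      intro k hk
      have : k = 0 := Fin.ext hk
      rw [this]
    | succ n ih =>
      intro k hk
      have hn : n < E + 1 := by omega
      exact (broom_adj_path r E ⟨n, hn⟩ k hk.symm).symm.reachable.trans (ih ⟨n, hn⟩ rfl)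
  have h : ∀ v, (broom r E).Reachable v (.inr 0) := by
    rintro (i | k)
    · refine (broom_adj_leaf r E i ⟨if i.val < r / 2 then 0 else E, ?_⟩ rfl).reachable.trans
        (hc _ _ rfl)
      split_ifs <;> omega
    · exact hc _ k rfl
  exact ⟨fun u v => (h u).trans (h v).symm⟩

/-- Position along the path. -/
def pos (r E : ℕ) : Fin r ⊕ Fin (E + 1) → ℕ
  | .inl i => if i.val < r / 2 then 0 else E + 2
  | .inr k => k.val + 1

lemma pos_adj (r E : ℕ) {u v : Fin r ⊕ Fin (E + 1)} (h : (broom r E).Adj u v) :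
    pos r E u ≤ pos r E v + 1 := by
  rcases u with i | k <;> rcases v with j | l <;>
    simp only [broom, SimpleGraph.fromRel_adj, pos, or_false, false_or, and_false] at h ⊢
  · obtain ⟨-, h⟩ := h
    split_ifs at h ⊢ <;> omega
  · obtain ⟨-, h⟩ := h
    split_ifs at h ⊢ <;> omega
  · omega

lemma pos_dist (r E : ℕ) (u v : Fin r ⊕ Fin (E + 1)) :
    pos r E u ≤ pos r E v + (broom r E).dist u v := by
  obtain ⟨w, hw⟩ := (broom_conn r E).exists_walk_length_eq_dist u v
  rw [← hw]
  clear hw
  induction w with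
  | nil => simp
  | cons h w ih =>
    have := pos_adj r E h
    rw [SimpleGraph.Walk.length_cons]
    omega

open Classical in
lemma broom_dist (r E : ℕ) (i j : Fin r) :
    (if i = j then 0 else 2) + E * (if (i.val < r / 2 ↔ j.val < r / 2) then 0 else 1) ≤
      (broom r E).dist (.inl i) (.inl j) := by
  by_cases hij : i = j
  · subst hij; simp
  by_cases hp : (i.val < r / 2 ↔ j.val < r / 2)
  · have hne : (Sum.inl i : Fin r ⊕ Fin (E + 1)) ≠ .inl j := by simpa using hij
    have hna : ¬ (broom r E).Adj (.inl i) (.inl j) := by simp [broom, SimpleGraph.fromRel_adj]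
    have := (broom_conn r E).one_lt_dist_of_ne_of_not_adj hne hna
    simp only [hij, hp, if_true, if_false]
    omega
  · have h1 := pos_dist r E (.inl i) (.inl j)
    have h2 := pos_dist r E (.inl j) (.inl i)
    rw [SimpleGraph.dist_comm] at h2
    simp only [hij, hp, if_false, mul_one]
    simp only [pos] at h1 h2
    split_ifs at h1 h2 <;> omega

open Classical in
lemma broom_sum (r E : ℕ) :
    E * (r ^ 2 / 4) + r ^ 2 ≤ ∑ i : Fin r, ∑ j : Fin r with i < j,
      (broom r E).dist (.inl i) (.inl j) + r := by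
  have h1 := double_sum (fun i j : Fin r => (broom r E).dist (.inl i) (.inl j))
    (fun i j => SimpleGraph.dist_comm) (fun i => SimpleGraph.dist_self)
  have h2 : ∑ i : Fin r, ∑ j : Fin r, (if i = j then 0 else 2)
      + E * ∑ i : Fin r, ∑ j : Fin r, (if (i.val < r / 2 ↔ j.val < r / 2) then 0 else 1) ≤
      ∑ i : Fin r, ∑ j : Fin r, (broom r E).dist (.inl i) (.inl j) := by
    rw [mul_sum, ← sum_add_distrib]
    refine sum_le_sum fun i _ => ?_
    rw [mul_sum, ← sum_add_distrib]
    exact sum_le_sum fun j _ => broom_dist r E i j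
  have h3 := offdiag_sum r
  have h4 := cut_eq (r := r) (fun i => i.val < r / 2)
  have h5 := card_filter_add_card_filter_not (s := (univ : Finset (Fin r)))
    (fun i => i.val < r / 2)
  rw [card_univ, Fintype.card_fin] at h5
  have h6 : (univ.filter (fun i : Fin r => i.val < r / 2)).card = r / 2 := by
    rw [Fin.card_filter_val_lt]
    exact min_eq_right (Nat.div_le_self _ _)
  have h7 : (univ.filter (fun i : Fin r => ¬ i.val < r / 2)).card = r - r / 2 := by omega
  have h8 : r ^ 2 / 4 ≤ r / 2 * (r - r / 2) := by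
    rcases Nat.even_or_odd' r with ⟨m, hm | hm⟩
    · have e1 : r / 2 = m := by omega
      have e2 : r - m = m := by omega
      rw [e1, e2, hm]
      have : (2 * m) ^ 2 = 4 * (m * m) := by ring
      omega
    · have e1 : r / 2 = m := by omega
      have e2 : r - m = m + 1 := by omega
      rw [e1, e2, hm]
      have : (2 * m + 1) ^ 2 = 4 * (m * (m + 1)) + 1 := by ring
      omega
  have h9 : ∑ i : Fin r, ∑ j : Fin r, (if (i.val < r / 2 ↔ j.val < r / 2) then 0 else 1) =
      2 * (r / 2 * (r - r / 2)) := by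
    rw [← h7]
    conv_rhs => rw [← h6]
    convert h4
  rw [h9] at h2
  have h10 := Nat.mul_le_mul_left E h8
  have e : E * (2 * (r / 2 * (r - r / 2))) = 2 * (E * (r / 2 * (r - r / 2))) := by ring
  omega

lemma broom_tds (r m E : ℕ) (hm : 2 ≤ m) (hE : E = m + 2 * (m / 2) - 3) :
    ∃ S : Finset (Fin r ⊕ Fin (E + 1)), IsTotalDominating (broom r E) S ∧ S.card ≤ m := by
  let g : Fin m → Fin (E + 1) := fun t => ⟨min (4 * (t.val / 2) + t.val % 2) E, by omega⟩
  refine ⟨univ.image fun t => .inr (g t), ?_, card_image_le.trans (by simp)⟩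
  have hmem : ∀ t, (Sum.inr (g t) : Fin r ⊕ Fin (E + 1)) ∈ univ.image fun t => .inr (g t) :=
    fun t => mem_image_of_mem _ (mem_univ t)
  rintro (i | k)
  · by_cases hi : i.val < r / 2
    · refine ⟨_, hmem ⟨0, by omega⟩, broom_adj_leaf r E i _ ?_⟩
      simp only [g, hi, if_true]
      omega
    · refine ⟨_, hmem ⟨m - 1, by omega⟩, broom_adj_leaf r E i _ ?_⟩
      simp only [g, hi, if_false]
      omega
  · have hk := k.isLt
    have h4 : k.val % 4 = 0 ∨ k.val % 4 = 1 ∨ k.val % 4 = 2 ∨ k.val % 4 = 3 := by omega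
    rcases h4 with h | h | h | h
    · refine ⟨_, hmem ⟨2 * (k.val / 4) + 1, by omega⟩, broom_adj_path r E _ _ ?_⟩
      simp only [g]
      omega
    · refine ⟨_, hmem ⟨2 * (k.val / 4), by omega⟩, (broom_adj_path r E _ _ ?_).symm⟩
      simp only [g]
      omega
    · refine ⟨_, hmem ⟨2 * (k.val / 4) + 1, by omega⟩, (broom_adj_path r E _ _ ?_).symm⟩
      simp only [g]
      omega
    · refine ⟨_, hmem ⟨2 * (k.val / 4) + 2, by omega⟩, broom_adj_path r E _ _ ?_⟩
      simp only [g]
      omega

theorem extremal (r m : ℕ) (hr : 2 ≤ r) (hm : 2 ≤ m) :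
    IsGreatest
      {D : ℕ | ∃ (V : Type) (_ : Fintype V) (G : SimpleGraph V), G.Connected ∧
        totalDominationNumber G = m ∧
        ∃ x : Fin r → V, D = ∑ i : Fin r, ∑ j : Fin r with i < j, G.dist (x i) (x j)}
      ((m + 2 * (m / 2) - 3) * (r ^ 2 / 4) + r * (r - 1)) := by
  have hrr : r * (r - 1) + r = r ^ 2 := by
    obtain ⟨k, rfl⟩ : ∃ k, r = k + 1 := ⟨r - 1, by omega⟩
    rw [Nat.add_sub_cancel]
    ring
  constructor
  · obtain ⟨E, hE⟩ : ∃ E, E = m + 2 * (m / 2) - 3 := ⟨_, rfl⟩
    obtain ⟨S, hS, hSm⟩ := broom_tds r m E hm hE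
    have hne : {k : ℕ | ∃ T, IsTotalDominating (broom r E) T ∧ T.card = k}.Nonempty :=
      ⟨_, S, hS, rfl⟩
    obtain ⟨T, hT, hc⟩ := Nat.sInf_mem hne
    have hle : T.card ≤ m := by
      rw [hc]
      refine le_trans (Nat.sInf_le ?_) hSm
      exact ⟨S, hS, rfl⟩
    have h1 := sum_le_par (broom_conn r E) hT (fun i : Fin r => .inl i)
    have h2 := broom_sum r E
    have hq : 0 < r ^ 2 / 4 := by
      have : 4 ≤ r ^ 2 := by nlinarith
      omega
    have h3 : E ≤ T.card + 2 * (T.card / 2) - 3 := Nat.le_of_mul_le_mul_right (by omega) hq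
    have h2T := (bnd_of_tds (r := r) (broom_conn r E) hT).1
    have hTm : T.card = m := by omega
    refine ⟨_, inferInstance, broom r E, broom_conn r E, ?_, fun i => .inl i, ?_⟩
    · unfold totalDominationNumber
      rw [← hc, hTm]
    · rw [hTm, ← hE] at h1
      rw [← hE]
      beta_reduce
      omega
  · rintro D ⟨V, _, G, hG, hγ, x, rfl⟩
    have hne : {k : ℕ | ∃ S : Finset V, IsTotalDominating G S ∧ S.card = k}.Nonempty := by
      by_contra h
      rw [Set.not_nonempty_iff_eq_empty] at h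
      unfold totalDominationNumber at hγ
      rw [h, Nat.sInf_empty] at hγ
      omega
    obtain ⟨S, hS, hc⟩ := Nat.sInf_mem hne
    have h := sum_le_par hG hS x
    unfold totalDominationNumber at hγ
    rw [hc, hγ] at h
    omega

/-- The best constant is read off from the extremal sums: the ratio is least at `m = 2`. -/
theorem constant_of_extremal (r : ℕ) (hr : 3 ≤ r) : IsGreatest
      {c : ℝ | ∀ (V : Type) [Fintype V] [Nontrivial V] (G : SimpleGraph V), G.Connected →
        ∀ x : Fin r → V,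
          c * ∑ i : Fin r, ∑ j : Fin r with i < j, (G.dist (x i) (x j) : ℝ) ≤
            (totalDominationNumber G : ℝ)}
      (if Even r then 8 / (5 * (r : ℝ) ^ 2 - 4 * r) else 8 / (5 * (r : ℝ) ^ 2 - 4 * r - 1)) := by
  obtain ⟨q, hq⟩ : ∃ q, q = r ^ 2 / 4 := ⟨_, rfl⟩
  obtain ⟨R, hR⟩ : ∃ R, R = r * (r - 1) := ⟨_, rfl⟩
  have hrr : R + r = r ^ 2 := by
    obtain ⟨k, rfl⟩ : ∃ k, r = k + 1 := ⟨r - 1, by omega⟩
    rw [hR, Nat.add_sub_cancel]
    ring
  have h3 : 3 * q ≤ R ∧ 0 < q := by
    rcases Nat.eq_or_lt_of_le hr with rfl | h4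
    · omega
    · have : 4 * r ≤ r ^ 2 := by nlinarith
      omega
  have hc : (if Even r then 8 / (5 * (r : ℝ) ^ 2 - 4 * r)
      else 8 / (5 * (r : ℝ) ^ 2 - 4 * r - 1)) = 2 / ((q + R : ℕ) : ℝ) := by
    have e1 : (R : ℝ) + r = (r : ℝ) ^ 2 := by exact_mod_cast hrr
    have e0 : (8 : ℝ) / (4 * ((q + R : ℕ) : ℝ)) = 2 / ((q + R : ℕ) : ℝ) := by
      rw [show (8 : ℝ) = 4 * 2 by norm_num, mul_div_mul_left _ _ (by norm_num)]
    rw [← e0]
    split_ifs with h
    · obtain ⟨k, rfl⟩ := h
      have e2 : 4 * q = (k + k) ^ 2 := by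
        have : (k + k) ^ 2 = 4 * (k * k) := by ring
        omega
      have e3 : 4 * (q : ℝ) = ((k + k : ℕ) : ℝ) ^ 2 := by exact_mod_cast e2
      congr 1
      rw [Nat.cast_add q R]
      linarith
    · obtain ⟨k, rfl⟩ := Nat.not_even_iff_odd.1 h
      have e2 : 4 * q + 1 = (2 * k + 1) ^ 2 := by
        have : (2 * k + 1) ^ 2 = 4 * (k * k + k) + 1 := by ring
        omega
      have e3 : 4 * (q : ℝ) + 1 = ((2 * k + 1 : ℕ) : ℝ) ^ 2 := by exact_mod_cast e2
      congr 1
      rw [Nat.cast_add q R]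
      linarith
  have hpos : (0 : ℝ) < ((q + R : ℕ) : ℝ) := by exact_mod_cast (show 0 < q + R by omega)
  rw [hc]
  constructor
  · intro V _ _ G hG x
    have hne : {k : ℕ | ∃ S : Finset V, IsTotalDominating G S ∧ S.card = k}.Nonempty :=
      ⟨_, univ, fun v => by
        obtain ⟨w, hw⟩ := hG.preconnected.exists_adj_of_nontrivial v
        exact ⟨w, mem_univ _, hw⟩, rfl⟩
    obtain ⟨S, hS, hcard⟩ := Nat.sInf_mem hne
    have h2 : 2 ≤ totalDominationNumber G := by
      unfold totalDominationNumber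
      rw [← hcard]
      exact (bnd_of_tds (r := r) hG hS).1
    have h4 := (extremal r _ (by omega) h2).2 ⟨V, inferInstance, G, hG, rfl, x, rfl⟩
    rw [← hq, ← hR] at h4
    generalize totalDominationNumber G = m at h2 h4
    obtain ⟨n, rfl⟩ := Nat.exists_eq_add_of_le h2
    have h5 : (2 + n + 2 * ((2 + n) / 2) - 3) * q ≤ (2 * n + 1) * q :=
      Nat.mul_le_mul_right q (by omega)
    have h6 : n * (3 * q) ≤ n * R := Nat.mul_le_mul_left n h3.1
    have h7 : 2 * ∑ i : Fin r, ∑ j : Fin r with i < j, G.dist (x i) (x j) ≤ (2 + n) * (q + R) := by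
      nlinarith
    rw [div_mul_eq_mul_div, div_le_iff₀ hpos]
    exact_mod_cast h7
  · intro c hc'
    obtain ⟨V, _, G, hG, hm, x, hx⟩ := (extremal r 2 (by omega) le_rfl).1
    have hx' : ∑ i : Fin r, ∑ j : Fin r with i < j, G.dist (x i) (x j) = q + R := by
      rw [← hx, ← hq, ← hR]; omega
    have : Nontrivial V := by
      by_contra hn
      have := not_nontrivial_iff_subsingleton.1 hn
      have h0 : ∑ i : Fin r, ∑ j : Fin r with i < j, G.dist (x i) (x j) = 0 :=
        sum_eq_zero fun i _ => sum_eq_zero fun j _ => by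
          rw [Subsingleton.elim (x i) (x j), SimpleGraph.dist_self]
      omega
    have h1 := hc' V G hG x
    rw [hm] at h1
    rw [le_div_iff₀ hpos, ← hx']
    exact_mod_cast h1

theorem result :
    (∀ r : ℕ, 3 ≤ r → IsGreatest
      {c : ℝ | ∀ (V : Type) [Fintype V] [Nontrivial V] (G : SimpleGraph V), G.Connected →
        ∀ x : Fin r → V,
          c * ∑ i : Fin r, ∑ j : Fin r with i < j, (G.dist (x i) (x j) : ℝ) ≤
            (totalDominationNumber G : ℝ)}
      (if Even r then 8 / (5 * (r : ℝ) ^ 2 - 4 * r) else 8 / (5 * (r : ℝ) ^ 2 - 4 * r - 1))) ∧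
    (∀ r m : ℕ, 2 ≤ r → 2 ≤ m → IsGreatest
      {D : ℕ | ∃ (V : Type) (_ : Fintype V) (G : SimpleGraph V), G.Connected ∧
        totalDominationNumber G = m ∧
        ∃ x : Fin r → V, D = ∑ i : Fin r, ∑ j : Fin r with i < j, G.dist (x i) (x j)}
      ((m + 2 * (m / 2) - 3) * (r ^ 2 / 4) + r * (r - 1))) :=
  ⟨constant_of_extremal, extremal⟩

end Pool.Agent.Results.MP_95a65f_co.ExtremalSum
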